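import Pool.Agent.T2H54.CL.All

set_option autoImplicit false

/-!
The shifted moments of the Riemann zeta function of every order `2k`, `k = n + 1 ≥ 2`, where ALL the
differences `α_j - β_j` are fixed and arbitrary: `α_j = h_j + a_j`, `β_j = h_j + b_j` with fixed real
`a_j ≠ b_j`, `h_0 = 0`, compared with the full prediction of the recipe, for almost all centres
`h_1, …, h_n` in `[0, T]`, with a saving of a power of `T`. The `2^k` terms of the recipe which swap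
`α_j` and `β_j` for `j` in a set `J` have the size of `T`.
-/

namespace Pool.Agent.Results.MP_fa2474_nt.FixedDifferences

open Complex MeasureTheory Filter

noncomputable section

variable {k : ℕ}

/-- The divisor function `τ_l(n)`: the sum over `d_1 d_2 ⋯ d_k = n` of `∏ j, d_j ^ l_j`. -/
def tau (l : Fin k → ℂ) (n : ℕ) : ℂ :=
  ∑ d ∈ Nat.finMulAntidiag k n, ∏ j, (d j : ℂ) ^ (l j)

/-- The Euler factor of `F(s; a, b)` at the prime `p`. -/
def localFactor (s : ℂ) (a b : Fin k → ℝ) (p : ℕ) : ℂ :=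
  (∏ j, ∏ l, (1 - (p : ℂ) ^ (-(2 * s + I * a j - I * b l)))) *
    ∑' m : ℕ, tau (fun j => I * b j) (p ^ m) * tau (fun j => -(I * a j)) (p ^ m) *
      (p : ℂ) ^ (-(2 * m * s))

/-- The arithmetic factor `F(s; a, b)`, an Euler product. -/
def arithF (s : ℂ) (a b : Fin k → ℝ) : ℂ := ∏' p : Nat.Primes, localFactor s a b p

/-- `ζ_{(a, b)}(s)`, through `F(s; a, b)` and the product of `k ^ 2` zeta functions. -/
def zetaAB (s : ℂ) (a b : Fin k → ℝ) : ℂ :=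
  arithF s a b * ∏ j, ∏ l, riemannZeta (2 * s + I * a j - I * b l)

/-- The factor `χ` of the functional equation `ζ(s) = χ(s) ζ(1 - s)`. -/
def chi (s : ℂ) : ℂ := (Real.pi : ℂ) ^ (s - 1 / 2) * Gamma ((1 - s) / 2) / Gamma (s / 2)

/-- `Z_{α, β}(t)`, where `γ = (α, β)` is indexed by `Fin k ⊕ Fin k`. -/
def Z (γ : Fin k ⊕ Fin k → ℝ) (t : ℝ) : ℂ :=
  ∏ j : Fin k, riemannZeta (1 / 2 + I * (t + γ (Sum.inl j))) *
    riemannZeta (1 / 2 - I * (t + γ (Sum.inr j)))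

/-- `G_γ(π)`, where `π(γ)` has the coordinates `γ (π i)`. -/
def G (γ : Fin k ⊕ Fin k → ℝ) (t : ℝ) (π : Equiv.Perm (Fin k ⊕ Fin k)) : ℂ :=
  (∏ j : Fin k, if (π (Sum.inl j)).isRight then chi (1 / 2 - I * t - I * γ (π (Sum.inl j))) else 1) *
  ∏ j : Fin k, if (π (Sum.inr j)).isLeft then chi (1 / 2 + I * t + I * γ (π (Sum.inr j))) else 1

/-- `Q_k(t; α, β)`: the summand depends only on the class of `π` in `S_{2k} / (S_k × S_k)`, so the
sum over the classes is the sum over all `π`, divided by `(k!) ^ 2`. -/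
def Q (γ : Fin k ⊕ Fin k → ℝ) (t : ℝ) : ℂ :=
  ((Nat.factorial k : ℂ) ^ 2)⁻¹ * ∑ π : Equiv.Perm (Fin k ⊕ Fin k),
    G γ t π * zetaAB (1 / 2) (fun j => γ (π (Sum.inl j))) (fun j => γ (π (Sum.inr j)))

open Pool.Agent.TH612.CF in
lemma zetaAB_eq (a b : Fin k → ℝ) :
    zetaAB (1 / 2) a b = zab (fun j => (a j : ℂ)) (fun j => (b j : ℂ)) := by
  unfold zetaAB zab arithF FH
  congr 1
  · refine tprod_congr fun p => ?_
    unfold localFactor lh lt
    congr 1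
    · refine Finset.prod_congr rfl fun j _ => Finset.prod_congr rfl fun l _ => ?_
      congr 2
      ring
    · refine tsum_congr fun m => ?_
      have hp : ((p : ℕ) : ℂ) ≠ 0 := by exact_mod_cast p.2.ne_zero
      have e : ((p : ℕ) : ℂ) ^ (-(2 * (m : ℂ) * (1 / 2))) = (((p : ℕ) : ℂ) ^ m)⁻¹ := by
        rw [← Complex.cpow_natCast, ← Complex.cpow_neg]
        congr 1; ring
      rw [e]
      rfl
  · refine Finset.prod_congr rfl fun j _ => Finset.prod_congr rfl fun l _ => ?_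
    congr 1
    ring

open Pool.Agent.TH612.CF in
lemma Q_eq (γ : Fin k ⊕ Fin k → ℝ) (t : ℝ) :
    Q γ t = ((Nat.factorial k : ℂ) ^ 2)⁻¹ * Qs t (fun i => (γ i : ℂ)) := by
  unfold Q Qs Rt
  congr 1
  refine Finset.sum_congr rfl fun π _ => ?_
  rw [zetaAB_eq]
  rfl

/-- The shifts `α_j = h_j + a_j`, `β_j = h_j + b_j`, where `h_0 = 0`. -/
def shifts {n : ℕ} (a b : Fin (n + 1) → ℝ) (h : Fin n → ℝ) : Fin (n + 1) ⊕ Fin (n + 1) → ℝ :=
  Sum.elim (fun j => (Fin.cons 0 h : Fin (n + 1) → ℝ) j + a j)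
    (fun j => (Fin.cons 0 h : Fin (n + 1) → ℝ) j + b j)

/-- For every `n ≥ 1` there is `δ > 0` such that for all `a, b ∈ ℝ ^ (n + 1)` with `a_j ≠ b_j` for all `j`
there is `T₀` with the following property. Let `T ≥ T₀`. Then the bound
`|∫_0^S (Z_{α, β}(t) - Q_k(t; α, β)) dt| ≤ T ^ (1 - δ)` for all `0 ≤ S ≤ T`, with `k = n + 1`,
`α = (a_0, h_1 + a_1, …, h_n + a_n)`, `β = (b_0, h_1 + b_1, …, h_n + b_n)`, holds for all `h` of the cube
`[0, T] ^ n` outside a set of measure at most `T ^ (n - δ)`. -/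
theorem result (n : ℕ) (hn : 1 ≤ n) :
    (∀ γ : Fin (n + 1) ⊕ Fin (n + 1) → ℝ, Continuous fun t : ℝ => Z γ t - Q γ t) ∧
    ∃ δ : ℝ, 0 < δ ∧ ∀ a b : Fin (n + 1) → ℝ, (∀ j, a j ≠ b j) → ∃ T₀ : ℝ, ∀ T : ℝ, T₀ ≤ T →
      volume {h : Fin n → ℝ | (∀ i, 0 ≤ h i ∧ h i ≤ T) ∧
        ∃ S : ℝ, 0 ≤ S ∧ S ≤ T ∧
          T ^ (1 - δ) < ‖∫ t in (0:ℝ)..S, (Z (shifts a b h) t - Q (shifts a b h) t)‖} ≤
      ENNReal.ofReal (T ^ (n - δ)) := by
  constructor
  · intro γ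
    have h := (Pool.Agent.TH612.GS.Zg_cont γ).sub
      ((continuous_const (y := ((Nat.factorial (n + 1) : ℂ) ^ 2)⁻¹)).mul
        (Pool.Agent.TH612.GS.Qs_cont γ))
    refine h.congr fun t => ?_
    rw [Q_eq]
    rfl
  · obtain ⟨δ, hδ, h⟩ := Pool.Agent.T2H54.CL.allQ n hn
    refine ⟨δ, hδ, fun a b hab => ?_⟩
    obtain ⟨T₀, h⟩ := h a b hab
    refine ⟨max T₀ 1, fun T hT => ?_⟩
    have hT1 : 0 < T := lt_of_lt_of_le one_pos ((le_max_right _ _).trans hT)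
    have e : {h : Fin n → ℝ | (∀ i, 0 ≤ h i ∧ h i ≤ T) ∧
        ∃ S : ℝ, 0 ≤ S ∧ S ≤ T ∧
          T ^ (1 - δ) < ‖∫ t in (0:ℝ)..S, (Z (shifts a b h) t - Q (shifts a b h) t)‖} =
        Pool.Agent.T2H54.CL.BadQ a b T (T * T ^ (-δ)) := by
      have e0 : T ^ (1 - δ) = T * T ^ (-δ) := by
        rw [sub_eq_add_neg, Real.rpow_add hT1, Real.rpow_one]
      ext θ
      simp only [Set.mem_ofPred_eq, Q_eq, e0]
      rfl
    have e1 : T ^ ((n : ℝ) - δ) = T ^ n * T ^ (-δ) := by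
      rw [sub_eq_add_neg, Real.rpow_add hT1, Real.rpow_natCast]
    rw [e, Pool.Agent.T2H54.CL.vol_Q, e1]
    exact h T ((le_max_left _ _).trans hT)

end

end Pool.Agent.Results.MP_fa2474_nt.FixedDifferences
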