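import Pool.Agent.T2H58.ST.All2

/-!
# MP_fa2474_nt: the shifted moments of all orders for almost every random twist, uniformly in ALL shifts and all lengths

For a sequence `θ` of real numbers in `[0, 1]` let `f = twist θ` be the completely multiplicative function with
`f(p) = e^{2πiθ_p}`, and `ζ_N(f; t) = ∑_{n ≤ N} f(n) n^{-1/2-it}`. For `f = 1` and `N = ⌊T⌋` this sum is `ζ(1/2 + it) + O(1)`
on `[T, 2T]`. For shifts `a, a' ∈ ℝ^k` and lengths `N, N' ∈ ℕ^k` let `diag a a' N N'` be the sum of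
`∏ d_j^{-i a_j} e_j^{i a'_j} / ∏ d_j` over the tuples `d_j ≤ N_j`, `e_j ≤ N'_j` of natural numbers with `∏ d_j = ∏ e_j`: this is the
series `∑_m τ_{-ia}(m) τ_{ia'}(m) / m` of the term without swaps, `ζ_{(a,a')}(1/2)`, of the recipe `Q_k` of the question, truncated
in every variable.

Theorem. For almost every `θ`, for all `k ≥ 1`, all `B` and `ε > 0`, uniformly for all real `T ≥ 1`, ALL shifts `a, a' ∈ ℝ^k` and all
lengths `N_j, N'_j ≤ T^B`,

`∫_0^T ∏_j ζ_{N_j}(f; t + a_j) conj ∏_j ζ_{N'_j}(f; t + a'_j) dt = T diag a a' N N' + O(∏_j (1 + |a_j|) (1 + |a'_j|) T^{1/2+ε})`.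

Proof. For a finite set `U` of pairs `(d, e)` of tuples let `F_U(t)` be the sum of their terms with `∏ d_j ≠ ∏ e_j`. The second
moments of the integrals of `F_U` over `[u, v]`, summed over disjoint sets `U` in `[1, R]^{2k}`, are at most `C (v - u) R^ε`, because
`E f(m) conj f(n) f(n') conj f(m') = 0` unless `m n' = m' n`. Dyadic chaining in `T` and in all the `2k` lengths gives the
bound for all `T` and all lengths at once, without shifts; Abel summation in the `2k` variables gives all shifts.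

The packages of the project were formalized by the team (files `Pool/Agent/T2H58/ST/`), with files of helper98's
project `Pool/Agent/T2H98/RT/` for the model.
-/

set_option autoImplicit false

open MeasureTheory Filter Topology

namespace Pool.Agent.Results.MP_fa2474_nt.RandomTwistsUniform

instance : IsProbabilityMeasure (volume.restrict (Set.Icc (0 : ℝ) 1)) := ⟨by simp⟩

/-- The law of a sequence of independent real numbers, each uniform in `[0, 1]`. -/
noncomputable def law : Measure (ℕ → ℝ) :=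
  Measure.infinitePi fun _ : ℕ => volume.restrict (Set.Icc (0 : ℝ) 1)

/-- The function `f(n) = exp(2πi ∑_p v_p(n) θ_p)`: completely multiplicative, `f(p) = e^{2πiθ_p}`. -/
noncomputable def twist (θ : ℕ → ℝ) (n : ℕ) : ℂ :=
  Complex.exp (2 * Real.pi * (∑ p ∈ n.primeFactors, (n.factorization p : ℝ) * θ p : ℝ) * Complex.I)

/-- `ζ_N(f; t) = ∑_{n ≤ N} f(n) n^{-1/2-it}`. -/
noncomputable def zsum (f : ℕ → ℂ) (N : ℕ) (t : ℝ) : ℂ :=
  ∑ n ∈ Finset.Icc 1 N, f n * (n : ℂ) ^ (-(1 / 2 : ℂ) - t * Complex.I)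

/-- The shifted moment `∫_0^T ∏_j ζ_{N_j}(f; t + a_j) conj ∏_j ζ_{N'_j}(f; t + a'_j) dt`. -/
noncomputable def moment {k : ℕ} (f : ℕ → ℂ) (a a' : Fin k → ℝ) (N N' : Fin k → ℕ) (T : ℝ) : ℂ :=
  ∫ t in (0:ℝ)..T, (∏ j, zsum f (N j) (t + a j)) * (starRingEnd ℂ) (∏ j, zsum f (N' j) (t + a' j))

/-- The sum of `∏_j d_j^{-i a_j} e_j^{i a'_j} / ∏_j d_j` over the `d_j ∈ [1, N_j]`, `e_j ∈ [1, N'_j]` with `∏_j d_j = ∏_j e_j`. -/
noncomputable def diag {k : ℕ} (a a' : Fin k → ℝ) (N N' : Fin k → ℕ) : ℂ :=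
  ∑ d ∈ Fintype.piFinset (fun j => Finset.Icc 1 (N j)), ∑ e ∈ Fintype.piFinset (fun j => Finset.Icc 1 (N' j)),
    if ∏ j, d j = ∏ j, e j then
      (∏ j, (d j : ℂ) ^ (-((a j : ℂ) * Complex.I)) * (e j : ℂ) ^ ((a' j : ℂ) * Complex.I)) / ∏ j, (d j : ℂ)
    else 0

open Pool.Agent.T2H58.ST in
lemma dgN_eq {k : ℕ} (a a' : Fin k → ℝ) (N N' : Fin k → ℕ) :
    dgN (Sum.elim a a') (Sum.elim N N') = diag a a' N N' := by
  unfold dgN diag
  rw [Finset.sum_filter, ← Finset.sum_product']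
  refine Finset.sum_nbij' (fun v => (fun j => v (Sum.inl j), fun j => v (Sum.inr j))) (fun p => Sum.elim p.1 p.2)
    ?_ ?_ ?_ ?_ ?_
  · intro v hv
    unfold box at hv
    rw [Fintype.mem_piFinset] at hv
    rw [Finset.mem_product, Fintype.mem_piFinset, Fintype.mem_piFinset]
    constructor
    · intro j
      have := Finset.mem_Ioc.1 (hv (Sum.inl j))
      simp only [Pi.zero_apply, Sum.elim_inl] at this
      exact Finset.mem_Icc.2 ⟨this.1, this.2⟩
    · intro j
      have := Finset.mem_Ioc.1 (hv (Sum.inr j))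
      simp only [Pi.zero_apply, Sum.elim_inr] at this
      exact Finset.mem_Icc.2 ⟨this.1, this.2⟩
  · intro p hp
    rw [Finset.mem_product, Fintype.mem_piFinset, Fintype.mem_piFinset] at hp
    unfold box
    rw [Fintype.mem_piFinset]
    intro j
    rcases j with j | j
    · have := Finset.mem_Icc.1 (hp.1 j)
      exact Finset.mem_Ioc.2 ⟨by simp only [Pi.zero_apply, Sum.elim_inl]; omega, this.2⟩
    · have := Finset.mem_Icc.1 (hp.2 j)
      exact Finset.mem_Ioc.2 ⟨by simp only [Pi.zero_apply, Sum.elim_inr]; omega, this.2⟩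
  · intro v _
    funext j
    rcases j with j | j <;> rfl
  · intro p _
    rfl
  · intro v _
    have h1 : pl v = ∏ j, v (Sum.inl j) := rfl
    have h2 : pr v = ∏ j, v (Sum.inr j) := rfl
    simp only [h1, h2]
    congr 1
    congr 1
    · rw [Fintype.prod_sum_type, Finset.prod_mul_distrib]
      congr 1
      refine Finset.prod_congr rfl fun j _ => ?_
      unfold wt
      simp
    · push_cast; rfl

/-- `twist θ` is completely multiplicative and unimodular, with value `e^{2πiθ_p}` at `p`, and `twist 0 = 1`. -/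
lemma twist_facts : (∀ (θ : ℕ → ℝ) (m n : ℕ), m ≠ 0 → n ≠ 0 → twist θ (m * n) = twist θ m * twist θ n) ∧
    (∀ (θ : ℕ → ℝ) (n : ℕ), ‖twist θ n‖ = 1) ∧
    (∀ (θ : ℕ → ℝ) (p : ℕ), p.Prime → twist θ p = Complex.exp (2 * Real.pi * θ p * Complex.I)) ∧
    ∀ n : ℕ, twist 0 n = 1 := by
  refine ⟨fun θ m n hm hn => Pool.Agent.T2H98.RT.pMUL.1 θ m n hm hn,
    fun θ n => Pool.Agent.T2H98.RT.pMUL.2.1 θ n, fun θ p hp => ?_, fun n => ?_⟩
  · unfold twist
    rw [hp.primeFactors, Finset.sum_singleton, hp.factorization_self]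
    norm_num
  · unfold twist
    simp

open Pool.Agent.T2H58.ST in
lemma main (h : S_FINS) : ∀ᵐ θ ∂law, ∀ k : ℕ, 1 ≤ k → ∀ (B : ℕ) (ε : ℝ), 0 < ε → ∃ K : ℝ, 0 < K ∧
    ∀ (T : ℝ) (a a' : Fin k → ℝ) (N N' : Fin k → ℕ), 1 ≤ T → (∀ j, (N j : ℝ) ≤ T ^ B ∧ (N' j : ℝ) ≤ T ^ B) →
      ‖moment (twist θ) a a' N N' T - T * diag a a' N N'‖ ≤
        K * (∏ j, (1 + |a j|) * (1 + |a' j|)) * T ^ (1 / 2 + ε) := by
  have hP : law = Pool.Agent.T2H98.RT.P := rfl
  rw [hP]
  unfold S_FINS at h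
  filter_upwards [h] with θ hθ k hk B ε hε
  obtain ⟨K, hK, h1⟩ := hθ k hk B ε hε
  refine ⟨K, hK, fun T a a' N N' hT hN => ?_⟩
  have h2 := h1 T (Sum.elim N N') (Sum.elim a a') hT (by
    intro j
    rcases j with j | j
    · exact (hN j).1
    · exact (hN j).2)
  rw [dgN_eq] at h2
  rw [Fintype.prod_sum_type] at h2
  rw [Finset.prod_mul_distrib]
  exact h2

/-- **Main theorem.** For almost every `θ`, for all `k ≥ 1`, `B` and `ε > 0`, the shifted moments of the twist with arbitrary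
shifts `a, a'` and arbitrary lengths `N_j, N'_j ≤ T^B` are `T diag + O(∏_j (1 + |a_j|) (1 + |a'_j|) T^{1/2+ε})`, uniformly in
everything. -/
theorem result : ∀ᵐ θ ∂law, ∀ k : ℕ, 1 ≤ k → ∀ (B : ℕ) (ε : ℝ), 0 < ε → ∃ K : ℝ, 0 < K ∧
    ∀ (T : ℝ) (a a' : Fin k → ℝ) (N N' : Fin k → ℕ), 1 ≤ T → (∀ j, (N j : ℝ) ≤ T ^ B ∧ (N' j : ℝ) ≤ T ^ B) →
      ‖moment (twist θ) a a' N N' T - T * diag a a' N N'‖ ≤
        K * (∏ j, (1 + |a j|) * (1 + |a' j|)) * T ^ (1 / 2 + ε) :=
  main Pool.Agent.T2H58.ST.vFINS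

end Pool.Agent.Results.MP_fa2474_nt.RandomTwistsUniform
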