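import Pool.Agent.T2H54.SB.All
import Pool.Agent.T2H54.SB.V3

set_option autoImplicit false

/-!
The shifted moments of the Riemann zeta function of every order `2k`, compared with the full
prediction of the recipe, for almost all shift vectors in every box of side `H ≥ T ^ (1/3 - η)`, and
for `t` in intervals of length `L`, where only `L H ≥ T ^ (1 + c)` is needed, with a saving of a
power of `T`.
-/

namespace Pool.Agent.Results.MP_fa2474_nt.ShortBoxes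

open Complex MeasureTheory Filter

noncomputable section

variable {k : ℕ}

/-- The divisor function `τ_l(n)`: the sum over `d_1 d_2 ⋯ d_k = n` of `∏ j, d_j ^ l_j`. -/
def tau (l : Fin k → ℂ) (n : ℕ) : ℂ :=
  ∑ d ∈ Nat.finMulAntidiag k n, ∏ j, (d j : ℂ) ^ (l j)

/-- The Euler factor of `F(s; a, b)` at the prime `p`. -/
def localFactor (s : ℂ) (a b : Fin k → ℝ) (p : ℕ) : ℂ :=
  (∏ j, ∏ l, (1 - (p : ℂ) ^ (-(2 * s + I * a j - I * b l)))) *
    ∑' m : ℕ, tau (fun j => I * b j) (p ^ m) * tau (fun j => -(I * a j)) (p ^ m) *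
      (p : ℂ) ^ (-(2 * m * s))

/-- The arithmetic factor `F(s; a, b)`, an Euler product. -/
def arithF (s : ℂ) (a b : Fin k → ℝ) : ℂ := ∏' p : Nat.Primes, localFactor s a b p

/-- `ζ_{(a, b)}(s)`, through `F(s; a, b)` and the product of `k ^ 2` zeta functions. -/
def zetaAB (s : ℂ) (a b : Fin k → ℝ) : ℂ :=
  arithF s a b * ∏ j, ∏ l, riemannZeta (2 * s + I * a j - I * b l)

/-- The factor `χ` of the functional equation `ζ(s) = χ(s) ζ(1 - s)`. -/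
def chi (s : ℂ) : ℂ := (Real.pi : ℂ) ^ (s - 1 / 2) * Gamma ((1 - s) / 2) / Gamma (s / 2)

/-- `Z_{α, β}(t)`, where `γ = (α, β)` is indexed by `Fin k ⊕ Fin k`. -/
def Z (γ : Fin k ⊕ Fin k → ℝ) (t : ℝ) : ℂ :=
  ∏ j : Fin k, riemannZeta (1 / 2 + I * (t + γ (Sum.inl j))) *
    riemannZeta (1 / 2 - I * (t + γ (Sum.inr j)))

/-- `G_γ(π)`, where `π(γ)` has the coordinates `γ (π i)`. -/
def G (γ : Fin k ⊕ Fin k → ℝ) (t : ℝ) (π : Equiv.Perm (Fin k ⊕ Fin k)) : ℂ :=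
  (∏ j : Fin k, if (π (Sum.inl j)).isRight then chi (1 / 2 - I * t - I * γ (π (Sum.inl j))) else 1) *
  ∏ j : Fin k, if (π (Sum.inr j)).isLeft then chi (1 / 2 + I * t + I * γ (π (Sum.inr j))) else 1

/-- `Q_k(t; α, β)`: the summand depends only on the class of `π` in `S_{2k} / (S_k × S_k)`, so the
sum over the classes is the sum over all `π`, divided by `(k!) ^ 2`. -/
def Q (γ : Fin k ⊕ Fin k → ℝ) (t : ℝ) : ℂ :=
  ((Nat.factorial k : ℂ) ^ 2)⁻¹ * ∑ π : Equiv.Perm (Fin k ⊕ Fin k),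
    G γ t π * zetaAB (1 / 2) (fun j => γ (π (Sum.inl j))) (fun j => γ (π (Sum.inr j)))

open Pool.Agent.TH612.CF in
lemma zetaAB_eq (a b : Fin k → ℝ) :
    zetaAB (1 / 2) a b = zab (fun j => (a j : ℂ)) (fun j => (b j : ℂ)) := by
  unfold zetaAB zab arithF FH
  congr 1
  · refine tprod_congr fun p => ?_
    unfold localFactor lh lt
    congr 1
    · refine Finset.prod_congr rfl fun j _ => Finset.prod_congr rfl fun l _ => ?_
      congr 2
      ring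
    · refine tsum_congr fun m => ?_
      have hp : ((p : ℕ) : ℂ) ≠ 0 := by exact_mod_cast p.2.ne_zero
      have e : ((p : ℕ) : ℂ) ^ (-(2 * (m : ℂ) * (1 / 2))) = (((p : ℕ) : ℂ) ^ m)⁻¹ := by
        rw [← Complex.cpow_natCast, ← Complex.cpow_neg]
        congr 1; ring
      rw [e]
      rfl
  · refine Finset.prod_congr rfl fun j _ => Finset.prod_congr rfl fun l _ => ?_
    congr 1
    ring

open Pool.Agent.TH612.CF in
lemma Q_eq (γ : Fin k ⊕ Fin k → ℝ) (t : ℝ) :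
    Q γ t = ((Nat.factorial k : ℂ) ^ 2)⁻¹ * Qs t (fun i => (γ i : ℂ)) := by
  unfold Q Qs Rt
  congr 1
  refine Finset.sum_congr rfl fun π _ => ?_
  rw [zetaAB_eq]
  rfl

/-- For every `k ≥ 1` and `c > 0` there are `η, δ > 0` and `T₀` with the following property. Let
`T ≥ T₀`, let `T ^ (1/3 - η) ≤ H ≤ T` be the side of a box and `L ≤ T` the length of an interval,
with `L H ≥ T ^ (1 + c)`. Then for every `A` and every box `∏ [U i, U i + H]` such that the box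
translated by `(A, …, A)` is in `[0, T] ^ (2k)`,
`|∫_A^(A+S) (Z_{α, β}(t) - Q_k(t; α, β)) dt| ≤ L T ^ (-δ)` for all `0 ≤ S ≤ L` holds for all
`γ = (α, β)` of the box outside a set of measure at most `T ^ (-δ)` times the measure of the box. -/
theorem result (k : ℕ) (hk : 1 ≤ k) {c : ℝ} (hc : 0 < c) :
    (∀ γ : Fin k ⊕ Fin k → ℝ, Continuous fun t : ℝ => Z γ t - Q γ t) ∧
    ∃ η δ : ℝ, 0 < η ∧ 0 < δ ∧ ∃ T₀ : ℝ, ∀ (T H L A : ℝ) (U : Fin k ⊕ Fin k → ℝ), T₀ ≤ T →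
      T ^ (1 / 3 - η) ≤ H → H ≤ T → L ≤ T → T ^ (1 + c) ≤ L * H →
      (∀ i, 0 ≤ A + U i ∧ A + U i + H ≤ T) →
      volume {γ : Fin k ⊕ Fin k → ℝ | (∀ i, U i ≤ γ i ∧ γ i ≤ U i + H) ∧
        ∃ S : ℝ, 0 ≤ S ∧ S ≤ L ∧ L * T ^ (-δ) < ‖∫ t in A..(A + S), (Z γ t - Q γ t)‖} ≤
      ENNReal.ofReal (T ^ (-δ) * H ^ (2 * k)) := by
  constructor
  · intro γ
    have h := (Pool.Agent.TH612.GS.Zg_cont γ).sub
      ((continuous_const (y := ((Nat.factorial k : ℂ) ^ 2)⁻¹)).mul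
        (Pool.Agent.TH612.GS.Qs_cont γ))
    refine h.congr fun t => ?_
    rw [Q_eq]
    rfl
  · obtain ⟨η, δ, hη, hδ, T₀, h⟩ := Pool.Agent.T2H54.SB.allL (κ := 1 / 3) le_rfl (by norm_num)
      Pool.Agent.T2H54.SB.pV3 k hk hc
    refine ⟨η, δ, hη, hδ, T₀, fun T H L A U hT hH hHT hLT hLH hU => ?_⟩
    have e : {γ : Fin k ⊕ Fin k → ℝ | (∀ i, U i ≤ γ i ∧ γ i ≤ U i + H) ∧
        ∃ S : ℝ, 0 ≤ S ∧ S ≤ L ∧ L * T ^ (-δ) < ‖∫ t in A..(A + S), (Z γ t - Q γ t)‖} =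
        {γ : Fin k ⊕ Fin k → ℝ | (∀ i, U i ≤ γ i ∧ γ i ≤ U i + H) ∧
          ∃ S : ℝ, 0 ≤ S ∧ S ≤ L ∧ L * T ^ (-δ) < ‖∫ t in A..(A + S),
            (Pool.Agent.TH612.CF.Zg γ t - ((Nat.factorial k : ℂ) ^ 2)⁻¹ *
              Pool.Agent.TH612.CF.Qs t (fun i => (γ i : ℂ)))‖} := by
      ext γ
      simp only [Set.mem_ofPred_eq, Q_eq]
      rfl
    rw [e, Pool.Agent.T2H54.SB.vol_box, mul_comm (T ^ (-δ)) (H ^ (2 * k))]
    refine h T H L _ hT hH hHT hLT hLH fun i => ?_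
    exact hU i

end

end Pool.Agent.Results.MP_fa2474_nt.ShortBoxes
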